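import Pool.Agent.Lib.KDig.Final

/-!
# MP_1ace43_nt: every residue class contains a small integer with almost all digits in `D`

The pair `(s, D)` is admissible: `0 ∈ D`, all elements of `D` are below `s`, `2 ≤ |D| ≤ s - 1` (that is
`1 ≤ k ≤ s - 2`) and the greatest common divisor of `D` is `1`. The digit of `x` at `s ^ i` in base
`s` is `x / s ^ i % s`; as `0 ∈ D`, the leading zeros do not matter.
-/

set_option autoImplicit false

namespace Pool.Agent.Results.MP_1ace43_nt.AlmostAllDigits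

theorem result (s : ℕ) (D : Finset ℕ) (h0 : 0 ∈ D) (hlt : ∀ δ ∈ D, δ < s) (h2 : 2 ≤ D.card)
    (hs : D.card + 1 ≤ s) (hgcd : D.gcd id = 1) :
    ∃ C : ℝ, 0 < C ∧ ∀ q : ℕ, 2 ≤ q → Nat.Coprime s q →
      ∀ σ : ℝ, 1 ≤ σ → ∀ N : ℕ, (q : ℝ) ^ (C * σ) ≤ N → ∀ lam : ℤ,
        ∃ x : ℕ, 0 < x ∧ x < N ∧ (x : ℤ) ≡ lam [ZMOD q] ∧
          (∀ i, Nat.clog s q + 2 ≤ i → x / s ^ i % s ∈ D) ∧
          (((Finset.range (Nat.clog s q + 2)).filter fun i => x / s ^ i % s ∉ D).card : ℝ) ≤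
            Real.exp (-σ) * Real.log q :=
  Lib.KDig.main ⟨h0, hlt, h2, hs, hgcd⟩

end Pool.Agent.Results.MP_1ace43_nt.AlmostAllDigits
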