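import Pool.Agent.Lib.P1aceP.DilFinE

/-!
# MP_1ace43_nt: every residue class is `x + a y`, for almost every small multiplier `a`

The set `D` of digits contains `0`, its elements are below `s` and its greatest common divisor is
`1` (so it has at least two elements). The digit of `x` at `s ^ i` is `x / s ^ i % s`; as `0 ∈ D`,
the leading zeros do not matter. The integers `x < s ^ L` with all digits in `D` are `|D| ^ L` in
number. The question asks for representations of all classes as `x + s ^ L y` with such `x` and `y`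
(the integer `x + s ^ L y` has all its digits in `D`), for `L ≤ C log q`.
-/

set_option autoImplicit false

namespace Pool.Agent.Results.MP_1ace43_nt.Dilates

open Real in
theorem result (s : ℕ) (D : Finset ℕ) (h0 : 0 ∈ D) (hD : ∀ d ∈ D, d < s) (hg : D.gcd id = 1) :
    (∃ C c : ℝ, 0 < C ∧ 0 < c ∧ ∀ q H L : ℕ, 2 ≤ q → Nat.Coprime s q → 2 ≤ H → H ≤ q →
      C * log (2 * log q / log H) * log q ≤ L →
        ∃ B : Finset ℕ, (B.card : ℝ) ≤ exp (-(c * (L / log q + √(L * log H / log q)))) * H ∧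
          ∀ a : ℕ, 0 < a → a ≤ H → a ∉ B → ∀ lam : ℤ,
          |({p : ℕ × ℕ | p.1 < s ^ L ∧ p.2 < s ^ L ∧ (∀ i, p.1 / s ^ i % s ∈ D) ∧
              (∀ i, p.2 / s ^ i % s ∈ D) ∧ (p.1 + a * p.2 : ℤ) ≡ lam [ZMOD q]}.ncard : ℝ) -
              (D.card : ℝ) ^ (2 * L) / q| ≤
            exp (-(c * (L / log q + √(L * log H / log q)))) * ((D.card : ℝ) ^ (2 * L) / q)) ∧
    (∃ C c : ℝ, 0 < C ∧ 0 < c ∧ ∀ q l L : ℕ, 2 ≤ q → Nat.Coprime s q → 1 ≤ l → s ^ l ≤ q →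
      C * log (2 * log q / log (s ^ l)) * log q ≤ L →
        ∃ B : Finset ℕ, (B.card : ℝ) ≤
            exp (-(c * (L / log q + √(L * log (s ^ l) / log q)))) * (D.card : ℝ) ^ l ∧
          ∀ a : ℕ, a < s ^ l → (∀ i, a / s ^ i % s ∈ D) → a ∉ B → ∀ lam : ℤ,
          |({p : ℕ × ℕ | p.1 < s ^ L ∧ p.2 < s ^ L ∧ (∀ i, p.1 / s ^ i % s ∈ D) ∧
              (∀ i, p.2 / s ^ i % s ∈ D) ∧ (p.1 + a * p.2 : ℤ) ≡ lam [ZMOD q]}.ncard : ℝ) -
              (D.card : ℝ) ^ (2 * L) / q| ≤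
            exp (-(c * (L / log q + √(L * log (s ^ l) / log q)))) *
              ((D.card : ℝ) ^ (2 * L) / q)) ∧
    ∃ C : ℝ, 0 < C ∧ ∀ q H N : ℕ, 2 ≤ q → Nat.Coprime s q → s ≤ H → H ≤ q →
      (q : ℝ) ^ (C * log (2 * log q / log H)) ≤ N →
        ∃ a : ℕ, 0 < a ∧ a < H ∧ (∀ i, a / s ^ i % s ∈ D) ∧ ∀ lam : ℤ, ∃ x y : ℕ,
          0 < x ∧ x < N ∧ 0 < y ∧ y < N ∧ (∀ i, x / s ^ i % s ∈ D) ∧
            (∀ i, y / s ^ i % s ∈ D) ∧ (x + a * y : ℤ) ≡ lam [ZMOD q] :=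
  Pool.Agent.Lib.P1aceP.dilates_exp h0 hD hg

end Pool.Agent.Results.MP_1ace43_nt.Dilates
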