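import Pool.Agent.Lib.P1aceP.ProdFinZ

/-!
# MP_1ace43_nt: products of two small integers with restricted digits, every modulus, every class

The set `D` of digits contains `0`, its elements are below `s` and its greatest common divisor is
`1` (so it has at least two elements). The digit of `x` at `s ^ i` is `x / s ^ i % s`; as `0 ∈ D`,
the leading zeros do not matter. The integers `x < s ^ L` with all digits in `D` are `|D| ^ L` in
number. If the class of `lam` is coprime to `q`, then the logarithm of `gcd (lam, q)` is `0`, and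
both factors of all pairs are coprime to `q`.
-/

set_option autoImplicit false

namespace Pool.Agent.Results.MP_1ace43_nt.Products

open Real in
theorem result (s : ℕ) (D : Finset ℕ) (h0 : 0 ∈ D) (hD : ∀ d ∈ D, d < s) (hg : D.gcd id = 1) :
    (∃ C c : ℝ, 0 < C ∧ 0 < c ∧ ∀ q L : ℕ, 2 ≤ q → Nat.Coprime s q → ∀ lam : ℤ,
      C * (log q + log (Int.gcd lam q) * log (1 + log (Int.gcd lam q))) ≤ L →
        |({p : ℕ × ℕ | p.1 < s ^ L ∧ p.2 < s ^ L ∧ (∀ i, p.1 / s ^ i % s ∈ D) ∧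
              (∀ i, p.2 / s ^ i % s ∈ D) ∧ Nat.Coprime p.1 q ∧
                (p.1 * p.2 : ℤ) ≡ lam [ZMOD q]}.ncard : ℝ) -
            (q.totient : ℝ) / q ^ 2 * (D.card : ℝ) ^ (2 * L)| ≤
          exp (-(c * (L / (√L + log (Int.gcd lam q))))) *
            ((q.totient : ℝ) / q ^ 2 * (D.card : ℝ) ^ (2 * L))) ∧
    ∃ C : ℝ, 0 < C ∧ ∀ q N : ℕ, 2 ≤ q → Nat.Coprime s q → ∀ lam : ℤ,
      (q : ℝ) ^ C * (Int.gcd lam q : ℝ) ^ (C * log (1 + log (Int.gcd lam q))) ≤ N →
        ∃ x y : ℕ, 0 < x ∧ x < N ∧ 0 < y ∧ y < N ∧ (∀ i, x / s ^ i % s ∈ D) ∧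
          (∀ i, y / s ^ i % s ∈ D) ∧ (x * y : ℤ) ≡ lam [ZMOD q] :=
  Pool.Agent.Lib.P1aceP.products_all2 h0 hD hg

end Pool.Agent.Results.MP_1ace43_nt.Products
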