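import Pool.Agent.Lib.P1aceS.AlmostAll

/-!
# MP_1ace43_nt: the moduli for which a given exponent is not allowed are sparse

The set `D` of digits contains `0`, its elements are below `s` and its greatest common divisor is
`1` (so it has at least two elements). The digit of `x` at `s ^ i` in base `s` is `x / s ^ i % s`;
as `0 ∈ D`, the leading zeros do not matter.
-/

set_option autoImplicit false

namespace Pool.Agent.Results.MP_1ace43_nt.SparseExceptions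

open Pool.Agent.Lib.P1aceS in
theorem result (s : ℕ) (hs : 2 ≤ s) :
    ∃ B : ℝ → Set ℕ,
      (∀ t : ℝ, 1 ≤ t →
        (∀ c ∈ B t, Real.exp (Real.exp t) < c) ∧
        (∀ X : ℕ, ({c | c ∈ B t ∧ c ≤ X}.ncard : ℝ) ≤ (X : ℝ) ^ Real.exp (-t)) ∧
        (∀ X : ℕ, ({q | 1 ≤ q ∧ q ≤ X ∧ ∃ c ∈ B t, c ∣ q}.ncard : ℝ) ≤
          11 * X / Real.exp (Real.exp t))) ∧
      ∀ D : Finset ℕ, 0 ∈ D → (∀ d ∈ D, d < s) → D.gcd id = 1 →
        ∃ C : ℝ, 0 < C ∧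
          (∀ t : ℝ, 1 ≤ t → ∀ q b : ℕ, 2 ≤ q → Nat.Coprime s q → b ∣ q →
            (∀ c ∈ B t, c ∣ q → c ∣ b) →
              (∀ μ : ℕ, ∃ x : ℕ, 0 < x ∧
                (x : ℝ) < (b : ℝ) ^ (C * max 1 (Real.log (Real.log b))) * (q : ℝ) ^ (C * t) ∧
                x ≡ μ [MOD q] ∧ ∀ i, x / s ^ i % s ∈ D) ∧
              ∀ Y : ℕ, (∀ μ : ℕ, ∃ x < Y, x ≡ μ [MOD b] ∧ ∀ i, x / s ^ i % s ∈ D) →
                ∀ μ : ℕ, ∃ x : ℕ, 0 < x ∧ (x : ℝ) < Y * (q : ℝ) ^ (C * t) ∧ x ≡ μ [MOD q] ∧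
                  ∀ i, x / s ^ i % s ∈ D) ∧
          ∀ X : ℕ, 1 ≤ X →
            ({q : ℕ | 2 ≤ q ∧ q ≤ X ∧ Nat.Coprime s q ∧ ∃ μ : ℕ, ∀ x : ℕ, 0 < x →
              (x : ℝ) < (q : ℝ) ^ C → x ≡ μ [MOD q] → ∃ i, x / s ^ i % s ∉ D}.ncard : ℝ) ≤
              8 * X * Real.exp (-(√(Real.log X / max 1 (Real.log (Real.log X))) / 20)) := by
  have hfin : ∀ (S : Set ℕ) (X : ℕ), (∀ q ∈ S, q ≤ X) →
      ∃ F : Finset ℕ, (∀ q ∈ F, q ∈ S) ∧ (S.ncard : ℝ) = F.card := by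
    intro S X h
    have hf : S.Finite := (Set.finite_Iic X).subset fun q hq => h q hq
    refine ⟨hf.toFinset, fun q hq => hf.mem_toFinset.1 hq, ?_⟩
    rw [Set.ncard_eq_toFinset_card S hf]
  refine ⟨fun t => SparseSet s (kap t), fun t ht => ⟨fun c hc => elem_gt hs ht hc, fun X => ?_,
    fun X => ?_⟩, fun D h0D hD hg => ?_⟩
  · obtain ⟨F, hF, hcard⟩ := hfin {c | c ∈ SparseSet s (kap t) ∧ c ≤ X} X fun q hq => hq.2
    rw [hcard]
    exact elem_count hs ht X F hF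
  · obtain ⟨F, hF, hcard⟩ := hfin {q | 1 ≤ q ∧ q ≤ X ∧ ∃ c ∈ SparseSet s (kap t), c ∣ q} X
      fun q hq => hq.2.1
    rw [hcard]
    exact mult_count_all hs ht X F hF
  · obtain ⟨_, C, hC, hT⟩ := main s D h0D hD hg
    refine ⟨2 * (C + 1), by positivity, ?_, ?_⟩
    · intro t ht q b hq hcop hbq hB
      have hqr : (1 : ℝ) ≤ q := by exact_mod_cast (by omega : 1 ≤ q)
      have hbr : (1 : ℝ) ≤ b := by
        exact_mod_cast Nat.one_le_iff_ne_zero.2 (Nat.pos_of_dvd_of_pos hbq (by omega)).ne'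
      have hqC : (q : ℝ) ^ (C * t) ≤ (q : ℝ) ^ (2 * (C + 1) * t) :=
        Real.rpow_le_rpow_of_exponent_le hqr (by nlinarith)
      constructor
      · intro μ
        obtain ⟨x, hx1, hx2, hx3, hx4⟩ := hybrid hs h0D hC hT ht hq hcop hbq hB μ
        refine ⟨x, hx1, lt_of_lt_of_le hx2 ?_, hx3, hx4⟩
        refine mul_le_mul ?_ hqC (by positivity) (by positivity)
        refine Real.rpow_le_rpow_of_exponent_le hbr ?_
        have : (1 : ℝ) ≤ max 1 (Real.log (Real.log b)) := le_max_left _ _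
        nlinarith
      · intro Y hY μ
        have hY1 : 1 ≤ Y := by
          obtain ⟨x, hx, _⟩ := hY 0
          omega
        obtain ⟨x, hx1, hx2, hx3, hx4⟩ := hT t ht q b Y hq hcop hbq hB hY1 hY μ
        refine ⟨x, hx1, lt_of_lt_of_le hx2 ?_, hx3, hx4⟩
        exact mul_le_mul_of_nonneg_left hqC (Nat.cast_nonneg _)
    · intro X hX
      obtain ⟨F, hF, hcard⟩ := hfin {q : ℕ | 2 ≤ q ∧ q ≤ X ∧ Nat.Coprime s q ∧ ∃ μ : ℕ, ∀ x : ℕ,
        0 < x → (x : ℝ) < (q : ℝ) ^ (2 * (C + 1)) → x ≡ μ [MOD q] → ∃ i, x / s ^ i % s ∉ D} X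
        fun q hq => hq.2.1
      rw [hcard]
      exact almost_all hs h0D hC hT hX F hF

end Pool.Agent.Results.MP_1ace43_nt.SparseExceptions
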